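import Mathlib

set_option autoImplicit false

namespace Pool.Agent.Results.MP_e0e877_co.PaletteMonotone

variable {V : Type*} [DecidableEq V]

/-- A position of the domatic number game with palette `Fin k`: a partial colouring of the
vertices, `none` meaning that the vertex has not been chosen yet. -/
abbrev Pos (V : Type*) (k : ℕ) := V → Option (Fin k)

/-- Every colour class of the position `p` dominates `H`: for every colour `c` and every vertex
`x` some vertex of the closed neighbourhood of `x` has colour `c`. -/
def AllDominate (H : SimpleGraph V) {k : ℕ} (p : Pos V k) : Prop :=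
  ∀ (c : Fin k) (x : V), ∃ y : V, (y = x ∨ H.Adj x y) ∧ p y = some c

/-- `AliceWins H m aliceToMove p`: Alice has a winning strategy in the domatic number game on `H`
when exactly `m` more moves are to be made from the position `p`, and Alice (if `aliceToMove` is
`true`) or Bob (if it is `false`) is to move. A move picks a vertex not chosen before and gives it
a colour of the palette. At the end Alice wins iff every colour class dominates `H`. -/
def AliceWins (H : SimpleGraph V) {k : ℕ} : ℕ → Bool → Pos V k → Prop
  | 0, _, p => AllDominate H p
  | m + 1, true, p =>
      ∃ v : V, p v = none ∧ ∃ c : Fin k, AliceWins H m false (Function.update p v (some c))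
  | m + 1, false, p =>
      ∀ v : V, p v = none → ∀ c : Fin k, AliceWins H m true (Function.update p v (some c))

/-- Alice wins the domatic number game on `H` with palette `Fin k`, started from the empty
colouring; the game lasts `|V|` moves. `aliceFirst = true` is the A-game, `aliceFirst = false` is
the B-game. -/
def AliceWinsGame [Fintype V] (H : SimpleGraph V) (k : ℕ) (aliceFirst : Bool) : Prop :=
  AliceWins H (Fintype.card V) aliceFirst (fun _ => none : Pos V k)

/-- The colour map that merges the last two colours. -/
def merge (k : ℕ) (c : Fin (k + 2)) : Fin (k + 1) :=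
  if h : c.val < k + 1 then ⟨c.val, h⟩ else Fin.last k

theorem merge_castSucc (k : ℕ) (c : Fin (k + 1)) : merge k c.castSucc = c := by
  have h : (c.castSucc).val < k + 1 := c.isLt
  unfold merge
  rw [dif_pos h]
  rfl

theorem sim (H : SimpleGraph V) (k m : ℕ) : ∀ (b : Bool) (p : Pos V (k + 2)),
    AliceWins H m b p → AliceWins H m b (fun v => (p v).map (merge k)) := by
  induction m with
  | zero =>
    intro b p h c x
    obtain ⟨y, hy, hc⟩ := h c.castSucc x
    exact ⟨y, hy, by simp [hc, merge_castSucc]⟩
  | succ m ih =>
    have key : ∀ (p : Pos V (k + 2)) (v : V) (c : Fin (k + 2)),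
        (fun w => (Function.update p v (some c) w).map (merge k)) =
          Function.update (fun w => (p w).map (merge k)) v (some (merge k c)) := by
      intro p v c
      funext w
      by_cases hw : w = v
      · subst hw; simp
      · simp [Function.update_of_ne hw]
    intro b p h
    cases b with
    | true =>
      obtain ⟨v, hv, c, hc⟩ := h
      refine ⟨v, by simp [hv], merge k c, ?_⟩
      rw [← key]
      exact ih _ _ hc
    | false =>
      intro v hv c
      have hv' : p v = none := by
        simpa using hv
      have := ih _ _ (h v hv' c.castSucc)
      rw [key, merge_castSucc] at this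
      exact this

theorem mono [Fintype V] (H : SimpleGraph V) (k : ℕ) (b : Bool)
    (h : AliceWinsGame H (k + 2) b) : AliceWinsGame H (k + 1) b := by
  have := sim H k _ b _ h
  simpa [AliceWinsGame] using this

theorem uncolored_update [Fintype V] {k : ℕ} (p : Pos V k) (v : V) (c : Fin k)
    (hv : p v = none) {m : ℕ} (hm : (Finset.univ.filter fun w => p w = none).card = m + 1) :
    (Finset.univ.filter fun w => Function.update p v (some c) w = none).card = m := by
  have : (Finset.univ.filter fun w => Function.update p v (some c) w = none) =
      (Finset.univ.filter fun w => p w = none).erase v := by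
    ext w
    by_cases hw : w = v
    · subst hw; simp
    · simp [hw]
  rw [this, Finset.card_erase_of_mem (by simp [hv]), hm]
  rfl

theorem one_wins [Fintype V] (H : SimpleGraph V) (m : ℕ) : ∀ (b : Bool) (p : Pos V 1),
    (Finset.univ.filter fun w => p w = none).card = m → AliceWins H m b p := by
  induction m with
  | zero =>
    intro b p hp c x
    refine ⟨x, Or.inl rfl, ?_⟩
    have hx : p x ≠ none := by
      intro h
      have : x ∈ (Finset.univ.filter fun w => p w = none) := by simp [h]
      rw [Finset.card_eq_zero] at hp
      rw [hp] at this
      simp at this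
    obtain ⟨d, hd⟩ := Option.ne_none_iff_exists'.mp hx
    rw [hd, Subsingleton.elim d c]
  | succ m ih =>
    intro b p hp
    cases b with
    | true =>
      have : (Finset.univ.filter fun w => p w = none).Nonempty := by
        rw [← Finset.card_pos, hp]; omega
      obtain ⟨v, hv⟩ := this
      have hv' : p v = none := by simpa using hv
      exact ⟨v, hv', 0, ih _ _ (uncolored_update p v 0 hv' hp)⟩
    | false =>
      intro v hv c
      exact ih _ _ (uncolored_update p v c hv hp)

theorem exists_final [Fintype V] (H : SimpleGraph V) {k : ℕ} (hk : 1 ≤ k) (m : ℕ) :
    ∀ (b : Bool) (p : Pos V k),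
    (Finset.univ.filter fun w => p w = none).card = m → AliceWins H m b p →
      ∃ q : Pos V k, AllDominate H q := by
  induction m with
  | zero => intro b p _ h; exact ⟨p, h⟩
  | succ m ih =>
    intro b p hp h
    cases b with
    | true =>
      obtain ⟨v, hv, c, hc⟩ := h
      exact ih _ _ (uncolored_update p v c hv hp) hc
    | false =>
      have : (Finset.univ.filter fun w => p w = none).Nonempty := by
        rw [← Finset.card_pos, hp]; omega
      obtain ⟨v, hv⟩ := this
      have hv' : p v = none := by simpa using hv
      exact ih _ _ (uncolored_update p v ⟨0, hk⟩ hv' hp) (h v hv' ⟨0, hk⟩)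

theorem le_card [Fintype V] [Nonempty V] (H : SimpleGraph V) {k : ℕ} (hk : 1 ≤ k) (b : Bool)
    (h : AliceWinsGame H k b) : k ≤ Fintype.card V := by
  obtain ⟨q, hq⟩ := exists_final H hk _ b _ (by simp) h
  obtain ⟨x⟩ := ‹Nonempty V›
  choose y hy hc using fun c => hq c x
  have hinj : Function.Injective y := by
    intro c d hcd
    have h1 := hc c
    rw [hcd, hc d] at h1
    exact (Option.some.inj h1).symm
  simpa using Fintype.card_le_of_injective y hinj

/-- **Palette monotonicity in the domatic number game.** For every finite simple graph `H` with at
least one vertex, and for the A-game (`aliceFirst = true`) as well as for the B-game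
(`aliceFirst = false`), the palette sizes `k ≥ 1` with which Alice wins are exactly those with
`k ≤ m`, for some `m ≥ 1`. In particular Alice winning with palette `[k+1]` implies that she wins
with palette `[k]`. -/
theorem result {V : Type*} [DecidableEq V] [Fintype V] [Nonempty V] (H : SimpleGraph V)
    (aliceFirst : Bool) :
    ∃ m : ℕ, 1 ≤ m ∧ ∀ k : ℕ, 1 ≤ k → (AliceWinsGame H k aliceFirst ↔ k ≤ m) := by
  classical
  set P : ℕ → Prop := fun k => 1 ≤ k ∧ AliceWinsGame H k aliceFirst with hP
  have h1 : P 1 := ⟨le_rfl, one_wins H _ _ _ (by simp)⟩
  refine ⟨Nat.findGreatest P (Fintype.card V), ?_, ?_⟩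
  · exact Nat.le_findGreatest (Fintype.card_pos) h1
  · intro k hk
    constructor
    · intro h
      exact Nat.le_findGreatest (le_card H hk _ h) ⟨hk, h⟩
    · intro h
      have hm : P (Nat.findGreatest P (Fintype.card V)) :=
        Nat.findGreatest_spec (P := P) (Fintype.card_pos (α := V)) h1
      have down : ∀ j : ℕ, ∀ k : ℕ, 1 ≤ k → AliceWinsGame H (k + j) aliceFirst →
          AliceWinsGame H k aliceFirst := by
        intro j
        induction j with
        | zero => intro k _ h; exact h
        | succ j ih =>
          intro k hk h
          apply ih k hk
          obtain ⟨l, hl⟩ : ∃ l, k + j = l + 1 := ⟨k + j - 1, by omega⟩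
          have e : k + (j + 1) = l + 2 := by omega
          rw [hl]
          rw [e] at h
          exact mono H l _ h
      obtain ⟨j, hj⟩ := Nat.exists_eq_add_of_le h
      apply down j k hk
      rw [← hj]
      exact hm.2

end Pool.Agent.Results.MP_e0e877_co.PaletteMonotone
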